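import Mathlib
import Pool.Agent.R582.SS.Use
import Pool.Agent.R582.GG.Final
import Pool.Agent.R582.ZZ.MA

/-!
# MP_70b496_lc, Q2: `cov(𝓜) < 𝔰𝔰_c` is consistent
-/

namespace Pool.Agent.Results.MP_70b496_lc.CovLtSubseries

open Cardinal Set Filter MeasureTheory
open Pool.Agent.R582.Rand (MAlg coins)
open Pool.Agent.R582.SS
open Pool.Agent.R582.GG (bb bb_mem)
open Pool.Agent.R582.ZZ (MartinAxiom)

/-- (1) In ZFC, `min {𝔡, cov(𝓝)} ≤ 𝔰𝔰_c`. (2) Let `W` be an uncountable set such that all families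
indexed by `W` of functions from `ℕ` to `ℕ` are bounded modulo finite sets, and let `K` be a set of
greater cardinality. Then every condition of the measure algebra of `2 ^ (K × ℕ)` (adding random reals
indexed by `K`) forces `Hyp W`. (3) If `ℵ₁ < 𝔟` then there are such `W` and `K`, with `|W| = ℵ₁`.
(4) Martin's axiom and `ℵ₁ < 𝔠` imply `ℵ₁ < 𝔟`. (5) In ZFC, `Hyp W` implies `cov(𝓜) < 𝔰𝔰_c`;
moreover `cov(𝓜) ≤ |W| < 𝔰𝔰_c`. -/
theorem result :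
    min dd covN ≤ ssc ∧
    (∀ K W : Type, ℵ₀ < #W → #W < #K →
      (∀ F : W → ℕ → ℕ, ∃ g : ℕ → ℕ, ∀ w, ∀ᶠ n in atTop, F w n ≤ g n) →
      ∀ p : MAlg (coins (K × ℕ)), p ∈ HypN (MAlg (coins (K × ℕ))) W) ∧
    (ℵ_ 1 < bb → ∃ K W : Type, ℵ₀ < #W ∧ #W < #K ∧ #W = ℵ_ 1 ∧
      ∀ F : W → ℕ → ℕ, ∃ g : ℕ → ℕ, ∀ w, ∀ᶠ n in atTop, F w n ≤ g n) ∧
    (MartinAxiom → ℵ_ 1 < (𝔠 : Cardinal.{0}) → ℵ_ 1 < bb) ∧
    (∀ W : Type, Hyp W → covM < ssc ∧ covM ≤ #W ∧ #W < ssc) := by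
  refine ⟨min_le_ssc, fun K W hW hK hb p => forced hW hK hb p, fun h => ?_, fun hMA hCH => ?_,
    fun W h => ⟨h.covM_lt, h.covM_le, h.lt_ssc⟩⟩
  · have hW : #(ℵ_ 1 : Cardinal.{0}).ord.ToType = ℵ_ 1 := Cardinal.mk_ord_toType _
    refine ⟨Set (ℵ_ 1 : Cardinal.{0}).ord.ToType, (ℵ_ 1 : Cardinal.{0}).ord.ToType, ?_, ?_, hW,
      fun F => ?_⟩
    · rw [hW]
      exact Cardinal.aleph0_lt_aleph_one
    · rw [Cardinal.mk_set]
      exact Cardinal.cantor _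
    · by_contra hcon
      push Not at hcon
      refine absurd h (not_lt.2 ?_)
      rw [← hW]
      refine (csInf_le' (s := {κ : Cardinal.{0} | ∃ F : Set (ℕ → ℕ), #F = κ ∧
        ∀ g : ℕ → ℕ, ∃ f ∈ F, ¬ ∀ᶠ n in atTop, f n ≤ g n}) ⟨range F, rfl, fun g => ?_⟩).trans
        Cardinal.mk_range_le
      obtain ⟨w, hw⟩ := hcon g
      refine ⟨F w, ⟨w, rfl⟩, fun h5 => ?_⟩
      obtain ⟨n, hn1, hn2⟩ := (hw.and_eventually h5).exists
      exact absurd hn2 (not_le.2 hn1)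
  · by_contra hcon
    rw [not_lt] at hcon
    obtain ⟨F, hF, hF2⟩ := bb_mem
    obtain ⟨g, hg⟩ := hMA.bounded (ι := F) ((hF.le.trans hcon).trans_lt hCH) fun f => f.1
    obtain ⟨f, hf, hf2⟩ := hF2 g
    exact hf2 (eventually_atTop.2 (hg ⟨f, hf⟩))

end Pool.Agent.Results.MP_70b496_lc.CovLtSubseries
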